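import Pool.Agent.W192.HK.Parts

/-! HK-MOB (owner helper192): Möbius inversion over the exponents in a residue class.
Adapted from `Pool.Agent.W636.CM.Mob`. -/

set_option autoImplicit false

open Finset

namespace Pool.Agent.W930.HK

open Pool.Agent.W192.HK

theorem sum_moebius_dvd (d a : ℕ) (hd : 0 < d) :
    ∑ r ∈ d.divisors, ((ArithmeticFunction.moebius r : ℤ) : ℂ) * (if r ∣ a then 1 else 0) =
      if Nat.Coprime a d then 1 else 0 := by
  have hg : 0 < Nat.gcd a d := Nat.gcd_pos_of_pos_right a hd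
  have h1 : ∑ r ∈ (Nat.gcd a d).divisors, (ArithmeticFunction.moebius r : ℤ) =
      if Nat.gcd a d = 1 then 1 else 0 := by
    rw [← ArithmeticFunction.coe_mul_zeta_apply, ArithmeticFunction.moebius_mul_coe_zeta,
      ArithmeticFunction.one_apply]
  have h2 : (d.divisors.filter (fun r => r ∣ a)) = (Nat.gcd a d).divisors := by
    ext r
    rw [mem_filter, Nat.mem_divisors, Nat.mem_divisors, Nat.dvd_gcd_iff]
    constructor
    · rintro ⟨⟨h3, _⟩, h4⟩
      exact ⟨⟨h4, h3⟩, hg.ne'⟩
    · rintro ⟨⟨h3, h4⟩, _⟩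
      exact ⟨⟨h4, hd.ne'⟩, h3⟩
  simp only [mul_ite, mul_one, mul_zero]
  rw [← sum_filter, h2, ← Int.cast_sum, h1]
  unfold Nat.Coprime
  split_ifs <;> simp

theorem h_mob : H_MOB := by
  classical
  intro d M hd0 hM hMd
  have hmem : ∀ a, a ∈ Ea d M ↔ a < d ∧ Nat.Coprime a d ∧ a % M = 1 % M := by
    intro a
    simp [Ea]
  -- the exponents
  have ht : ∀ r : ℕ, ∃ t : ℕ, Nat.Coprime r M → t ≡ 0 [MOD r] ∧ t ≡ 1 [MOD M] ∧
      (0 < r → t < r * M) := by
    intro r
    by_cases h : Nat.Coprime r M
    · refine ⟨(Nat.chineseRemainder h 0 1 : ℕ), fun _ => ⟨(Nat.chineseRemainder h 0 1).2.1,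
        (Nat.chineseRemainder h 0 1).2.2, fun hr => ?_⟩⟩
      exact Nat.chineseRemainder_lt_mul h 0 1 hr.ne' hM.ne'
    · exact ⟨0, fun h1 => absurd h1 h⟩
  choose t ht using ht
  refine ⟨t, ?_, ?_⟩
  · have : NeZero d := ⟨hd0.ne'⟩
    have : NeZero M := ⟨by omega⟩
    have h1 : Nat.card (ZMod.unitsMap hMd).ker * Nat.card (ZMod M)ˣ = Nat.card (ZMod d)ˣ := by
      rw [← Subgroup.card_mul_index (ZMod.unitsMap hMd).ker, Subgroup.index_ker,
        MonoidHom.range_eq_top.2 (ZMod.unitsMap_surjective hMd), Subgroup.card_top]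
    rw [Nat.card_eq_fintype_card (α := (ZMod M)ˣ), Nat.card_eq_fintype_card (α := (ZMod d)ˣ),
      ZMod.card_units_eq_totient, ZMod.card_units_eq_totient] at h1
    rw [← h1]
    congr 1
    rw [Nat.card_eq_fintype_card, ← Finset.card_univ]
    symm
    refine Finset.card_bij (fun u _ => ((u : (ZMod d)ˣ) : ZMod d).val) ?_ ?_ ?_
    · rintro ⟨u, hu⟩ _
      rw [hmem]
      refine ⟨ZMod.val_lt _, ZMod.val_coe_unit_coprime u, ?_⟩
      rw [← ZMod.natCast_eq_natCast_iff']
      rw [MonoidHom.mem_ker] at hu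
      have h2 := congrArg (fun z : (ZMod M)ˣ => (z : ZMod M)) hu
      simp only [ZMod.unitsMap_val, Units.val_one] at h2
      rw [Nat.cast_one, ← h2, ZMod.natCast_val]
    · rintro ⟨u, hu⟩ _ ⟨v, hv⟩ _ huv
      refine Subtype.ext (Units.ext ?_)
      exact ZMod.val_injective d huv
    · intro a ha'
      obtain ⟨had, ha, haM⟩ := (hmem a).1 ha'
      refine ⟨⟨ZMod.unitOfCoprime a ha, ?_⟩, mem_univ _, ?_⟩
      · rw [MonoidHom.mem_ker]
        refine Units.ext ?_
        rw [ZMod.unitsMap_val, ZMod.coe_unitOfCoprime, Units.val_one, ZMod.cast_natCast hMd,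
          ← Nat.cast_one, ZMod.natCast_eq_natCast_iff']
        exact haM
      · simp only [ZMod.coe_unitOfCoprime, ZMod.val_natCast]
        exact Nat.mod_eq_of_lt had
  · intro g _
    -- sum over the residues
    have h1 : ∑ a ∈ Ea d M, g a =
        ∑ a ∈ (range d).filter (fun a => a % M = 1 % M), g a *
          (if Nat.Coprime a d then 1 else 0) := by
      simp only [mul_ite, mul_one, mul_zero]
      rw [← sum_filter]
      refine Finset.sum_congr ?_ (fun _ _ => rfl)
      ext a
      rw [hmem, mem_filter, mem_filter, mem_range]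
      tauto
    have h2 : ∀ a, g a * (if Nat.Coprime a d then 1 else 0) =
        ∑ r ∈ d.divisors, ((ArithmeticFunction.moebius r : ℤ) : ℂ) *
          (if r ∣ a then g a else 0) := by
      intro a
      rw [← sum_moebius_dvd d a hd0, mul_sum]
      refine sum_congr rfl fun r _ => ?_
      split_ifs <;> ring
    rw [h1, sum_congr rfl (fun a _ => h2 a), sum_comm, sum_filter]
    refine sum_congr rfl fun r hr => ?_
    have hrd : r ∣ d := (Nat.mem_divisors.1 hr).1
    have hr0 : 0 < r := Nat.pos_of_dvd_of_pos hrd hd0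
    rw [← mul_sum]
    by_cases hrM : Nat.Coprime r M
    · rw [if_pos hrM]
      congr 1
      obtain ⟨ht0, ht1, ht2⟩ := ht r hrM
      have ht3 := ht2 hr0
      have hrMd : r * M ∣ d := Nat.Coprime.mul_dvd_of_dvd_of_dvd hrM hrd hMd
      obtain ⟨e, he⟩ := hrMd
      have hrM0 : 0 < r * M := Nat.mul_pos hr0 (by omega)
      have he' : d / (r * M) = e := by
        rw [he, Nat.mul_div_cancel_left _ hrM0]
      rw [he', ← sum_filter]
      symm
      refine Finset.sum_bij (fun j _ => t r + r * M * j) ?_ ?_ ?_ (fun _ _ => rfl)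
      · intro j hj
        rw [mem_range] at hj
        simp only [mem_filter, mem_range]
        refine ⟨⟨?_, ?_⟩, ?_⟩
        · rw [he]
          calc t r + r * M * j < r * M + r * M * j := by omega
            _ = r * M * (j + 1) := by ring
            _ ≤ r * M * e := Nat.mul_le_mul_left _ hj
        · have h4 : t r + r * M * j ≡ 1 + 0 [MOD M] := ht1.add
            (Nat.modEq_zero_iff_dvd.2 ⟨r * j, by ring⟩)
          exact h4
        · exact dvd_add (Nat.modEq_zero_iff_dvd.1 ht0) ⟨M * j, by ring⟩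
      · intro j _ j' _ hjj
        have h4 : r * M * j = r * M * j' := by
          have h5 : t r + r * M * j = t r + r * M * j' := hjj
          omega
        exact Nat.eq_of_mul_eq_mul_left hrM0 h4
      · intro a ha
        simp only [mem_filter, mem_range] at ha
        have h3 : a ≡ t r [MOD r * M] := by
          rw [← Nat.modEq_and_modEq_iff_modEq_mul hrM]
          refine ⟨?_, ?_⟩
          · exact ((Nat.modEq_zero_iff_dvd.2 ha.2)).trans ht0.symm
          · have h4 : a ≡ 1 [MOD M] := ha.1.2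
            exact h4.trans ht1.symm
        have h4 : a % (r * M) = t r := by
          have h5 : a % (r * M) = t r % (r * M) := h3
          rw [h5, Nat.mod_eq_of_lt ht3]
        refine ⟨a / (r * M), ?_, ?_⟩
        · rw [mem_range]
          rw [Nat.div_lt_iff_lt_mul hrM0, mul_comm, ← he]
          exact ha.1.1
        · show t r + r * M * (a / (r * M)) = a
          rw [← h4]
          exact Nat.mod_add_div a (r * M)
    · rw [if_neg hrM]
      have h3 : ∀ a ∈ (range d).filter (fun a => a % M = 1 % M),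
          (if r ∣ a then g a else 0) = 0 := by
        intro a ha
        rw [if_neg]
        intro hra
        apply hrM
        simp only [mem_filter, mem_range] at ha
        have h4 : a ≡ 1 [MOD M] := ha.2
        have h5 : a ≡ 1 [MOD Nat.gcd r M] := h4.of_dvd (Nat.gcd_dvd_right r M)
        have h6 : a ≡ 0 [MOD Nat.gcd r M] :=
          Nat.modEq_zero_iff_dvd.2 ((Nat.gcd_dvd_left r M).trans hra)
        exact Nat.dvd_one.1 (Nat.modEq_zero_iff_dvd.1 (h5.symm.trans h6))
      rw [sum_eq_zero h3, mul_zero]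

end Pool.Agent.W930.HK
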